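import Pool.Agent.Q17.AM.Stm

/-! Project AM, job BOT: the trivial defect group. -/

set_option autoImplicit false

open scoped Classical

noncomputable section

namespace Pool.Agent.Q111.AM

open Pool.Agent.H254R3.IN hiding NN
open Pool.Agent.Q17.AM

/-- irreducibility only depends on the set of the operators -/
theorem irr_transfer {G H V : Type} [Group G] [Group H] [AddCommGroup V] [Module ℂ V]
    (ρ : Representation ℂ G V) (σ : Representation ℂ H V)
    (h1 : ∀ g, ∃ h, ρ g = σ h) (h2 : ∀ h, ∃ g, σ h = ρ g)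
    (hr : ρ.IsIrreducible) : σ.IsIrreducible := by
  let f : Subrepresentation ρ ≃o Subrepresentation σ :=
    { toFun := fun S => ⟨S.toSubmodule, by
        intro h x hx
        obtain ⟨g, e⟩ := h2 h
        rw [e]
        exact S.apply_mem_toSubmodule g hx⟩
      invFun := fun S => ⟨S.toSubmodule, by
        intro g x hx
        obtain ⟨h, e⟩ := h1 g
        rw [e]
        exact S.apply_mem_toSubmodule h hx⟩
      left_inv := fun S => rfl
      right_inv := fun S => rfl
      map_rel_iff' := by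
        intro S S'
        exact Iff.rfl }
  exact (OrderIso.isSimpleOrder_iff f).1 hr

/-- transport along an isomorphism -/
theorem irr_comp {G H : Type} [Group G] [Group H] {χ : G → ℂ} (hχ : IsIrr χ) (e : H ≃* G) :
    IsIrr (fun h => χ (e h)) := by
  obtain ⟨V, _, _, _, ρ, hr, rfl⟩ := hχ
  refine ⟨V, _, _, inferInstance, ρ.comp (e : H →* G), ?_, rfl⟩
  refine irr_transfer ρ _ (fun g => ⟨e.symm g, ?_⟩) (fun h => ⟨e h, rfl⟩) hr
  change ρ g = ρ (e (e.symm g))
  rw [e.apply_symm_apply]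

theorem isConj_equiv {G H : Type} [Group G] [Group H] (e : H ≃* G) (a b : H) :
    IsConj a b ↔ IsConj (e a) (e b) := by
  constructor
  · intro h
    exact (e : H →* G).map_isConj h
  · intro h
    have h1 := (e.symm : G →* H).map_isConj h
    have h2 : ∀ x, (e.symm : G →* H) (e x) = x := fun x => e.symm_apply_apply x
    rwa [h2, h2] at h1

theorem omega_comp {G H : Type} [Group G] [Group H] (χ : G → ℂ) (e : H ≃* G) (a : H) :
    omega (fun h => χ (e h)) a = omega χ (e a) := by
  unfold omega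
  have h1 : Nat.card {y : H // IsConj a y} = Nat.card {y : G // IsConj (e a) y} :=
    Nat.card_congr (e.toEquiv.subtypeEquiv fun y => isConj_equiv e a y)
  rw [h1]
  simp only [map_one]

theorem mem_NN {G : Type} [Group G] (g : G) : g ∈ NN (⊥ : Subgroup G) := by
  have h : NN (⊥ : Subgroup G) = ⊤ := Subgroup.normalizer_eq_top_iff.2 inferInstance
  rw [h]
  exact Subgroup.mem_top g

/-- the normaliser of the trivial group is the whole group -/
def eN (G : Type) [Group G] : NN (⊥ : Subgroup G) ≃* G :=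
  MulEquiv.ofBijective (NN (⊥ : Subgroup G)).subtype
    ⟨Subtype.val_injective, fun g => ⟨⟨g, mem_NN g⟩, rfl⟩⟩

theorem eN_apply {G : Type} [Group G] (x : NN (⊥ : Subgroup G)) : eN G x = (x : G) := rfl

theorem fin_omega {G : Type} [Group G] [Fintype G] {θ : NN (⊥ : Subgroup G) → ℂ} (hθ : IsIrr θ)
    (x : NN (⊥ : Subgroup G)) :
    ∑ᶠ y : {y : NN (⊥ : Subgroup G) // IsConj (x : G) (y : G)}, θ y / θ 1 = omega θ x := by
  have : Fintype {y : NN (⊥ : Subgroup G) // IsConj (x : G) (y : G)} := Fintype.ofFinite _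
  have h1 : ∀ y : {y : NN (⊥ : Subgroup G) // IsConj (x : G) (y : G)}, θ y / θ 1 = θ x / θ 1 := by
    intro y
    have h2 : IsConj x y.1 := (isConj_equiv (eN G) x y.1).2 y.2
    rw [hθ.isConj h2]
  rw [finsum_eq_sum_of_fintype, Finset.sum_congr rfl fun y _ => h1 y, Finset.sum_const,
    Finset.card_univ, ← Nat.card_eq_fintype_card, nsmul_eq_mul]
  unfold omega
  have h3 : Nat.card {y : NN (⊥ : Subgroup G) // IsConj (x : G) (y : G)} =
      Nat.card {y : NN (⊥ : Subgroup G) // IsConj x y} :=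
    Nat.card_congr (Equiv.subtypeEquivRight fun y => (isConj_equiv (eN G) x y).symm)
  rw [h3]
  ring

theorem t_BOT : S_BOT := by
  intro G _ _ p _ O hpO B b hB hb
  obtain ⟨hb1, -, hb3⟩ := hb
  have : Fintype (NN (⊥ : Subgroup G)) := Fintype.ofFinite _
  have key : ∀ χ ∈ B, ∀ θ ∈ b, ∀ x : NN (⊥ : Subgroup G),
      red O (omega χ (x : G)) = red O (omega θ x) := by
    intro χ hχ θ hθ x
    have h1 := hb3 χ hχ θ hθ x
    rw [fin_omega (hb1.irr θ hθ) x] at h1
    exact (red_eq_iff ((hB.irr χ hχ).omega_mem O _) ((hb1.irr θ hθ).omega_mem O _)).2 h1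
  obtain ⟨χ₁, hχ₁⟩ := hB.nonempty
  obtain ⟨θ₁, hθ₁⟩ := hb1.nonempty
  ext θ
  constructor
  · intro hθ
    refine ⟨fun g => θ ((eN G).symm g), ?_, fun x => ?_⟩
    · by_contra hcon
      obtain ⟨x, hx⟩ := hB.exists_ne hχ₁ (irr_comp (hb1.irr θ hθ) (eN G).symm) hcon
      apply hx
      rw [omega_comp θ (eN G).symm x, ← key χ₁ hχ₁ θ hθ ((eN G).symm x)]
      have h1 : (((eN G).symm x : NN (⊥ : Subgroup G)) : G) = x := (eN G).apply_symm_apply x
      rw [h1]
    · have h1 : (eN G).symm (x : G) = x := (eN G).symm_apply_apply x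
      change θ x = θ ((eN G).symm (x : G))
      rw [h1]
  · rintro ⟨χ, hχ, hθ⟩
    have h0 : θ = fun x => χ (eN G x) := funext hθ
    rw [h0]
    by_contra hcon
    obtain ⟨x, hx⟩ := hb1.exists_ne hθ₁ (irr_comp (hB.irr χ hχ) (eN G)) hcon
    apply hx
    rw [omega_comp χ (eN G) x, eN_apply, key χ hχ θ₁ hθ₁ x]

end Pool.Agent.Q111.AM
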